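import Mathlib
import Pool.Agent.R508.PairFamily

set_option autoImplicit false

/-!
# Multiples among sums of consecutive primes: the first quotient is unbounded

`S i = p_i + p_{i+1}`, and `a(n)` is the least `k > n` with `S n ∣ S k`, when there is such a `k`.
We show that `S (a(n)) / S n` is not bounded over the `n` for which `a(n)` exists.

Proof. Let `C` be given.

(1) Let `k` be such that infinitely often two of any `k` suitable linear forms are prime (Maynard-Tao).
Let `S n(i,j) = 2 m(i,j)`, `i < j < k`, with `m(i,j)` odd, pairwise coprime and coprime to `(k+1)!`.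
By the Chinese remainder theorem there are forms `Q x + b + D i` whose values are the only possible
primes between them, and with `b + D i ≡ 1`, `b + D j ≡ -1 (mod m(i,j))` for all `i < j`. Two consecutive
primes of this tuple have a sum divisible by some `2 m(i,j)`. Hence `a(n(i,j))` exists for some pair.

(2) So it suffices to find many `n` with `S n / 2` odd and coprime to given numbers such that `j S n` is not
a sum of two consecutive primes for `2 ≤ j ≤ C`. By Maynard-Tao there are clusters of `C + 1` consecutive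
primes in a bounded interval, congruent to `1` modulo a given number, and such that moreover (Chinese
remainder theorem) there are no primes in the `j`-fold dilate of this interval, `2 ≤ j ≤ C`. Then for
every `j` at most one of the `C` sums `S n` of the cluster has the property that `j S n` is a sum of
two consecutive primes, so that one of the `C` sums is suitable for all the `C - 1` values of `j`.
-/

namespace Pool.Agent.Results.MP_78140d_nt.Unbounded

/-- `S i = p_i + p_{i+1}` for `i ≥ 1`, where `p_1 = 2, p_2 = 3, p_3 = 5, ...` are the primes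
(`Nat.nth Nat.Prime 0 = 2`). -/
noncomputable def S (i : ℕ) : ℕ := Nat.nth Nat.Prime (i - 1) + Nat.nth Nat.Prime i

/-- **`S (a(n)) / S n` is unbounded.** There is no constant `C` such that `S a ≤ C * S n` for every `n ≥ 1`
and every `a` which is the least `k > n` with `S n ∣ S k`. -/
theorem result : ¬ ∃ C : ℝ, ∀ n : ℕ, 1 ≤ n → ∀ a : ℕ,
    IsLeast {k : ℕ | n < k ∧ S n ∣ S k} a → (S a : ℝ) ≤ C * S n := by
  rintro ⟨C, hC⟩
  set C' : ℕ := max 1 ⌈C⌉₊ with hC'
  have hC1 : 1 ≤ C' := le_max_left _ _
  have hCC : C ≤ C' := (Nat.le_ceil C).trans (by exact_mod_cast le_max_right _ _)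
  obtain ⟨n, ⟨hn1, hn2⟩, hn3⟩ := Pool.Agent.R508.main_comb
    (fun n => 1 ≤ n ∧ ∀ j κ : ℕ, 2 ≤ j → j ≤ C' → 1 ≤ κ →
      j * Pool.Agent.R508.S n ≠ Pool.Agent.R508.S κ) (by
    intro R hR
    obtain ⟨n, h1, _, ⟨x, hx⟩, h2⟩ := Pool.Agent.R508.good_index C' R hC1 hR 0
    refine ⟨n, ⟨h1, h2⟩, 1 + 2 * R * x, ?_, by omega, ?_⟩
    · rw [hx]; ring
    · simp)
  -- the least multiple
  have hne : {k : ℕ | n < k ∧ S n ∣ S k}.Nonempty := by
    obtain ⟨κ, h1, h2⟩ := hn3 (n + 1)
    exact ⟨κ, by omega, h2⟩
  set a := sInf {k : ℕ | n < k ∧ S n ∣ S k} with ha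
  have hmem : a ∈ {k : ℕ | n < k ∧ S n ∣ S k} := Nat.sInf_mem hne
  have hleast : IsLeast {k : ℕ | n < k ∧ S n ∣ S k} a := ⟨hmem, fun k hk => Nat.sInf_le hk⟩
  obtain ⟨hna, f, hf⟩ := hmem
  have h1 := hC n hn1 a hleast
  have hlt : S n < S a := Pool.Agent.R508.S_lt hn1 hna
  have hSpos : 0 < S n := by
    have h2 : 0 < Nat.nth Nat.Prime n := (Pool.Agent.R508.nth_prime n).pos
    unfold S
    omega
  have hf2 : 2 ≤ f := by
    by_contra hc
    have h3 : f ≤ 1 := by omega
    have h4 : S n * f ≤ S n * 1 := Nat.mul_le_mul_left _ h3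
    omega
  have hfC : C' < f := by
    by_contra hc
    refine hn2 f a hf2 (by omega) (by omega) ?_
    rw [mul_comm]
    exact hf.symm
  have h5 : (C' : ℝ) * S n < S a := by
    rw [hf]
    push_cast
    have h6 : (C' : ℝ) < f := by exact_mod_cast hfC
    have h7 : (0 : ℝ) < S n := by exact_mod_cast hSpos
    rw [mul_comm (S n : ℝ)]
    exact mul_lt_mul_of_pos_right h6 h7
  have h8 : C * S n ≤ (C' : ℝ) * S n := mul_le_mul_of_nonneg_right hCC (Nat.cast_nonneg _)
  linarith

end Pool.Agent.Results.MP_78140d_nt.Unbounded
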